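import Pool.Agent.Y742.SP.Stm

/-!
# Project SP: SDiv and SGood
-/

set_option autoImplicit false

namespace Pool.Agent.Y86.SP

open FF MvPolynomial Pool.Agent.W602.GT Pool.Agent.Y742.SP

/-- places which are trivial on `L` are divisorial -/
theorem sDiv : SDiv := by
  intro Ω K _ _ _ _ L n y hy P hP
  refine ⟨fun i => ((y i : L) : K), fun F hF => ?_⟩
  have h1 : aeval (fun i => ((y i : L) : K)) F = ((aeval y F : L) : K) :=
    (comp_aeval_apply y L.val F).symm
  have h2 : aeval y F ≠ 0 := by
    intro h
    exact hF (hy.1 (by rw [h, map_zero]))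
  have h3 : ((aeval y F : L) : K) ≠ 0 := by
    intro h
    exact h2 (Subtype.ext h)
  have h4 : aeval (fun i => ((y i : L) : K)) F ≠ 0 ∧
      P.ord (aeval (fun i => ((y i : L) : K)) F) = 0 := by
    rw [h1]
    exact ⟨h3, hP _ (aeval y F : L).2 h3⟩
  exact h4

section

variable {Ω M : Type} [Field Ω] [Field M] [Algebra Ω M] {B : IntermediateField Ω M}
  {z : Fin 2 → M} {P : Place Ω M}

/-- polynomials in the coordinates are regular -/
theorem reg_aeval (ht : TrivOn P B) (hz : ∀ i, P.Reg (z i)) (G : MvPolynomial (Fin 2) B) :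
    P.Reg (aeval z G) := by
  induction G using MvPolynomial.induction_on with
  | C c =>
    rw [aeval_C]
    by_cases h : (algebraMap B M c) = 0
    · exact Or.inl h
    · exact Or.inr (ht _ c.2 h).ge
  | add p q hp hq =>
    rw [map_add]
    exact P.reg_add hp hq
  | mul_X p i hp =>
    rw [map_mul, aeval_X]
    exact P.reg_mul hp (hz i)

/-- the derivative of a polynomial in the coordinates -/
theorem der_aeval (E : Derivation Ω M M) (hE : ∀ a ∈ B, E a ∈ B) (G : MvPolynomial (Fin 2) B) :
    ∃ G' : MvPolynomial (Fin 2) B, E (aeval z G) =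
      aeval z G' + (aeval z (pderiv 0 G) * E (z 0) + aeval z (pderiv 1 G) * E (z 1)) := by
  induction G using MvPolynomial.induction_on with
  | C c =>
    refine ⟨C ⟨E c, hE _ c.2⟩, ?_⟩
    rw [aeval_C, aeval_C, pderiv_C, pderiv_C, map_zero, zero_mul, zero_mul, add_zero, add_zero]
    rfl
  | add p q hp hq =>
    obtain ⟨p', hp⟩ := hp
    obtain ⟨q', hq⟩ := hq
    refine ⟨p' + q', ?_⟩
    simp only [map_add]
    rw [hp, hq]
    ring
  | mul_X p i hp =>
    obtain ⟨p', hp⟩ := hp
    refine ⟨p' * X i, ?_⟩
    rw [map_mul, aeval_X, Derivation.leibniz, hp, map_mul, aeval_X, pderiv_mul, pderiv_mul,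
      map_add, map_add, map_mul, map_mul, map_mul, map_mul, aeval_X, smul_eq_mul, smul_eq_mul]
    have h0 : aeval z (pderiv 0 (X i : MvPolynomial (Fin 2) B)) * E (z 0) +
        aeval z (pderiv 1 (X i : MvPolynomial (Fin 2) B)) * E (z 1) = E (z i) := by
      fin_cases i
      · show aeval z (pderiv 0 (X 0 : MvPolynomial (Fin 2) B)) * E (z 0) +
          aeval z (pderiv 1 (X 0 : MvPolynomial (Fin 2) B)) * E (z 1) = E (z 0)
        rw [pderiv_X_self, pderiv_X_of_ne (by decide), map_one, map_zero]
        ring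
      · show aeval z (pderiv 0 (X 1 : MvPolynomial (Fin 2) B)) * E (z 0) +
          aeval z (pderiv 1 (X 1 : MvPolynomial (Fin 2) B)) * E (z 1) = E (z 1)
        rw [pderiv_X_self, pderiv_X_of_ne (by decide), map_one, map_zero]
        ring
    rw [← h0]
    ring

theorem reg_div {f g : M} (hf : P.Reg f) (hg : g ≠ 0) (hg' : P.ord g = 0) : P.Reg (f / g) := by
  rw [div_eq_mul_inv]
  refine P.reg_mul hf (Or.inr ?_)
  rw [P.ord_inv, hg', neg_zero]

end

/-- the tangent vector field of a plane affine curve at a smooth point -/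
theorem sGood (h : SChart) : SGood := by
  intro Ω M _ _ _ _ B z H P hch D hD hD0 hD1
  have hreg := reg_aeval hch.triv hch.reg
  have hDr : DerReg P D := by
    refine h Ω M B z H P hch D (fun c hc => ?_) (fun i => ?_)
    · rw [hD c hc]
      exact B.zero_mem
    · have h2 : i = 0 ∨ i = 1 := by fin_cases i <;> simp
      rcases h2 with h2 | h2
      · rw [h2, hD0]
        exact hreg _
      · rw [h2, hD1]
        exact P.reg_neg (hreg _)
  refine ⟨hDr, fun E hE => ?_⟩
  obtain ⟨H', hH'⟩ := der_aeval (z := z) E hE H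
  rw [hch.zero, map_zero] at hH'
  -- it is enough that the coordinates are mapped to regular functions
  have key : ∀ g : M, P.Reg (E (z 0) + g * D (z 0)) → P.Reg (E (z 1) + g * D (z 1)) →
      DerReg P (E + g • D) := by
    intro g h0 h1
    refine h Ω M B z H P hch (E + g • D) (fun c hc => ?_) (fun i => ?_)
    · have h3 : (E + g • D) c = E c := by
        rw [Derivation.add_apply, Derivation.smul_apply, hD c hc, smul_zero, add_zero]
      rw [h3]
      exact hE c hc
    · have h3 : ∀ x, (E + g • D) x = E x + g * D x := fun x => rfl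
      have h2 : i = 0 ∨ i = 1 := by fin_cases i <;> simp
      rcases h2 with h2 | h2
      · rw [h2, h3]
        exact h0
      · rw [h2, h3]
        exact h1
  obtain ⟨i, hi0, hi⟩ := hch.smooth
  have h2 : i = 0 ∨ i = 1 := by fin_cases i <;> simp
  rcases h2 with h2 | h2
  · rw [h2] at hi0 hi
    refine ⟨E (z 1) / aeval z (pderiv 0 H), key _ ?_ ?_⟩
    · have h3 : E (z 0) + E (z 1) / aeval z (pderiv 0 H) * D (z 0) =
          (-(aeval z H')) / aeval z (pderiv 0 H) := by
        rw [hD0, eq_div_iff hi0]
        have h4 : E (z 1) / aeval z (pderiv 0 H) * aeval z (pderiv 1 H) *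
            aeval z (pderiv 0 H) = E (z 1) * aeval z (pderiv 1 H) := by
          field_simp
        rw [add_mul, h4]
        linear_combination (-1 : M) * hH'
      rw [h3]
      exact reg_div (P.reg_neg (hreg _)) hi0 hi
    · have h3 : E (z 1) + E (z 1) / aeval z (pderiv 0 H) * D (z 1) = 0 := by
        rw [hD1, mul_neg, div_mul_cancel₀ _ hi0, add_neg_cancel]
      rw [h3]
      exact P.reg_zero
  · rw [h2] at hi0 hi
    refine ⟨-E (z 0) / aeval z (pderiv 1 H), key _ ?_ ?_⟩
    · have h3 : E (z 0) + -E (z 0) / aeval z (pderiv 1 H) * D (z 0) = 0 := by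
        rw [hD0, div_mul_cancel₀ _ hi0, add_neg_cancel]
      rw [h3]
      exact P.reg_zero
    · have h3 : E (z 1) + -E (z 0) / aeval z (pderiv 1 H) * D (z 1) =
          (-(aeval z H')) / aeval z (pderiv 1 H) := by
        rw [hD1, eq_div_iff hi0]
        have h4 : -E (z 0) / aeval z (pderiv 1 H) * -aeval z (pderiv 0 H) *
            aeval z (pderiv 1 H) = E (z 0) * aeval z (pderiv 0 H) := by
          field_simp
        rw [add_mul, h4]
        linear_combination (-1 : M) * hH'
      rw [h3]
      exact reg_div (P.reg_neg (hreg _)) hi0 hi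

end Pool.Agent.Y86.SP
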